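import Pool.Agent.Helper30.LS.Lower

/-!
# Double lattice packings of density at least `1/2`: the bodies of small volume

Let `K` be a convex body, `a` the area of its vertical projection, `M` the largest length of a
vertical section and `V` its volume. If the projection has a lattice packing of density at least
`p` and `V` is at most `kappa (p) * M * a`, then `K` has a double lattice packing of density at
least `1/2`. The planar packing is inflated to the determinant `a / p`, the height is chosen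
such that the density is exactly `1/2`, and the integral of the weight `fw` is bounded through
the areas of the superlevel sets.
-/

set_option autoImplicit false
namespace Pool.Agent.Helper54.LS
open MeasureTheory Metric
open Pool.Agent.Helper59.Pack Pool.Agent.Helper69.MD Pool.Agent.Helper63.ML
open Pool.Agent.Helper7.LS
open scoped ENNReal Pointwise

/-- The algebraic core. -/
theorem fm_alg {x y r W : ℝ} (hx : 9 / 20 ≤ x) (hx3 : 3 * x ^ 2 < 1) (hW : 2 ≤ W)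
    (hWx : 19 * x ^ 2 - 3 < 2 * W * x ^ 2) (hr : 0 ≤ r) (hry : r ≤ y)
    (hb : 19 * x ^ 2 + 4 * x + 1 ≤ 1 + 4 * y + 7 * y ^ 2 + 12 * r ^ 2)
    (ha : 7 + 4 * y + y ^ 2 + 4 * (W - 5) * r ^ 2 ≤ 19 * x ^ 2 + 4 * x + 1)
    (hc : 4 + 3 * y + y ^ 2 + (1 + y) * r + 2 * (W - 1) * r ^ 2 ≤ 19 * x ^ 2 + 4 * x + 1) :
    False := by
  have hx0 : 0 < x := by linarith
  have hy0 : 0 ≤ y := hr.trans hry
  have hr2 : r ^ 2 ≤ y ^ 2 := pow_le_pow_left₀ hr hry 2
  have hyx : x ≤ y := by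
    by_contra hlt
    push Not at hlt
    have h1 : y ^ 2 < x ^ 2 := pow_lt_pow_left₀ hlt hy0 (by norm_num)
    linarith
  have hyx2 : x ^ 2 ≤ y ^ 2 := pow_le_pow_left₀ hx0.le hyx 2
  by_cases hrx : r ≤ x
  · have hrx2 : r ^ 2 ≤ x ^ 2 := pow_le_pow_left₀ hr hrx 2
    by_cases hW5 : 5 ≤ W
    · have h1 : 0 ≤ (W - 5) * r ^ 2 := mul_nonneg (by linarith) (by positivity)
      linarith
    · push Not at hW5
      have h1 : (5 - W) * r ^ 2 ≤ (5 - W) * x ^ 2 :=
        mul_le_mul_of_nonneg_left hrx2 (by linarith)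
      nlinarith
  · push Not at hrx
    have hrx2 : x ^ 2 < r ^ 2 := pow_lt_pow_left₀ hrx hx0.le (by norm_num)
    have h1 : (1 + x) * x ≤ (1 + y) * r := by gcongr
    have h2 : (W - 1) * x ^ 2 ≤ (W - 1) * r ^ 2 :=
      mul_le_mul_of_nonneg_left hrx2.le (by linarith)
    nlinarith

/-- The inequality for the areas of the superlevel sets. -/
theorem profile_fm {A : ℝ → ℝ} {M a V s x : ℝ} (hM : 0 < M) (ha : 0 < a) (hA0 : A 0 = a)
    (hAn : ∀ u, 0 ≤ A u) (hAm : AntitoneOn A (Set.Icc 0 M))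
    (hc : ∀ u v l : ℝ, 0 ≤ u → u ≤ M → 0 ≤ v → v ≤ M → 0 ≤ l → l ≤ 1 →
      (1 - l) * √(A u) + l * √(A v) ≤ √(A ((1 - l) * u + l * v)))
    (hV : V = ∫ u in (0 : ℝ)..M, A u) (hx : 9 / 20 ≤ x) (hx3 : 3 * x ^ 2 < 1)
    (hs : 0 < s) (hs1 : s ≤ 1) (hsx : s * (19 * x ^ 2 - 3) < 4 * x ^ 2)
    (hVs : 12 * V = s * ((19 * x ^ 2 + 4 * x + 1) * (M * a))) :
    4 * (2 / (2 * s * M) * (∫ u in (2 * s * M / 4)..(2 * s * M / 2), A u) +
      1 / 2 * A (2 * s * M / 2)) < (19 * x ^ 2 + 4 * x + 1) * a / 6 := by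
  by_contra hcon
  push Not at hcon
  have hsM : s * M ≤ M := by nlinarith
  have hsM0 : 0 < s * M := mul_pos hs hM
  have e1 : 2 * s * M / 4 = s * M / 2 := by ring
  have e2 : 2 * s * M / 2 = s * M := by ring
  rw [e1, e2] at hcon
  set S := √a with hS
  have hS0 : 0 < S := Real.sqrt_pos.2 ha
  have hSS : S ^ 2 = a := Real.sq_sqrt ha.le
  have hSA : √(A 0) = S := by rw [hA0]
  set X := √(A (s * M / 2)) with hX
  have hX0 : 0 ≤ X := Real.sqrt_nonneg _
  set Y := √(A (s * M)) with hY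
  have hY0 : 0 ≤ Y := Real.sqrt_nonneg _
  have hYY : Y ^ 2 = A (s * M) := Real.sq_sqrt (hAn _)
  obtain ⟨m, hm⟩ : ∃ m, m = X / S := ⟨_, rfl⟩
  obtain ⟨r, hr⟩ : ∃ r, r = Y / S := ⟨_, rfl⟩
  have hXm : X = m * S := by rw [hm, div_mul_cancel₀ _ hS0.ne']
  have hYr : Y = r * S := by rw [hr, div_mul_cancel₀ _ hS0.ne']
  have hr0 : 0 ≤ r := by rw [hr]; positivity
  -- concavity
  have k1 : (S + Y) / 2 ≤ X := by
    have h := hc 0 (s * M) (1 / 2) le_rfl hM.le hsM0.le hsM (by norm_num) (by norm_num)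
    rw [show (1 - 1 / 2) * 0 + 1 / 2 * (s * M) = s * M / 2 by ring, hSA] at h
    linarith
  have k2 : r ≤ 2 * m - 1 := by
    rw [hXm, hYr] at k1
    have : r * S ≤ (2 * m - 1) * S := by linarith
    exact le_of_mul_le_mul_right this hS0
  -- upper bound for the square root beyond the point `s * M / 2`
  have k3 : ∀ u, s * M / 2 ≤ u → u ≤ s * M →
      √(A u) ≤ (1 - (u - s * M / 2) / (s * M - s * M / 2)) * X +
        (u - s * M / 2) / (s * M - s * M / 2) * (2 * X - S) := by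
    intro u hu1 hu2
    have hu0 : 0 < u := by linarith
    set l := s * M / 2 / u with hl
    have hl0 : 0 ≤ l := by positivity
    have hl1 : l ≤ 1 := (div_le_one hu0).2 hu1
    have h := hc 0 u l le_rfl hM.le hu0.le (hu2.trans hsM) hl0 hl1
    rw [show (1 - l) * 0 + l * u = s * M / 2 by rw [hl]; field_simp; ring, hSA] at h
    have hlu : l * u = s * M / 2 := by rw [hl]; field_simp
    have h2 : (1 - l) * S * u + l * √(A u) * u ≤ X * u := by
      have := mul_le_mul_of_nonneg_right h hu0.le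
      linarith
    have h3 : l * √(A u) * u = s * M / 2 * √(A u) := by
      rw [← hlu]; ring
    have h4 : (1 - l) * S * u = (u - s * M / 2) * S := by
      rw [← hlu]; ring
    rw [h3, h4] at h2
    have h5 : (1 - (u - s * M / 2) / (s * M - s * M / 2)) * X +
        (u - s * M / 2) / (s * M - s * M / 2) * (2 * X - S) =
        (X * u - (u - s * M / 2) * S) / (s * M / 2) := by
      have : s * M - s * M / 2 = s * M / 2 := by ring
      rw [this]
      field_simp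
      ring
    rw [h5, le_div_iff₀ (by positivity)]
    linarith
  -- integrals
  have hint : ∀ p q : ℝ, 0 ≤ p → p ≤ q → q ≤ M → IntervalIntegrable A volume p q := by
    intro p q hp hpq hq
    apply AntitoneOn.intervalIntegrable
    rw [Set.uIcc_of_le hpq]
    exact hAm.mono (Set.Icc_subset_Icc hp hq)
  have i4 : IntervalIntegrable A volume (s * M) M := hint _ _ hsM0.le hsM le_rfl
  have i5 : IntervalIntegrable A volume 0 (s * M / 2) :=
    hint _ _ le_rfl (by positivity) (by linarith)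
  have i6 : IntervalIntegrable A volume (s * M / 2) (s * M) :=
    hint _ _ (by positivity) (by linarith) hsM
  have s2 : (∫ u in (0 : ℝ)..(s * M / 2), A u) + (∫ u in (s * M / 2)..(s * M), A u) +
      (∫ u in (s * M)..M, A u) = V := by
    rw [intervalIntegral.integral_add_adjacent_intervals i5 i6,
      intervalIntegral.integral_add_adjacent_intervals (i5.trans i6) i4, hV]
  have b1 := seg hAn hAm hc (p := 0) (q := s * M / 2) (α := S) (β := X) le_rfl
    (by positivity) (by linarith) hS0.le hX0 hSA.ge le_rfl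
  have b2 := seg hAn hAm hc (p := s * M / 2) (q := s * M) (α := X) (β := Y) (by positivity)
    (by linarith) hsM hX0 hY0 le_rfl le_rfl
  have b4 := seg hAn hAm hc (p := s * M) (q := M) (α := Y) (β := 0) hsM0.le
    hsM le_rfl hY0 le_rfl le_rfl (Real.sqrt_nonneg _)
  have b3 : ∫ u in (s * M / 2)..(s * M), A u ≤
      (s * M - s * M / 2) * (X ^ 2 + X * (2 * X - S) + (2 * X - S) ^ 2) / 3 := by
    rw [← integral_chord (s * M / 2) (s * M) X (2 * X - S) (by linarith)]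
    refine intervalIntegral.integral_mono_on (by linarith) i6
      (Continuous.intervalIntegrable (by fun_prop) _ _) ?_
    intro u hu
    calc A u = √(A u) ^ 2 := (Real.sq_sqrt (hAn u)).symm
      _ ≤ _ := pow_le_pow_left₀ (Real.sqrt_nonneg _) (k3 u hu.1 hu.2) 2
  obtain ⟨I, hI⟩ : ∃ I, I = ∫ u in (s * M / 2)..(s * M), A u := ⟨_, rfl⟩
  rw [← hI] at hcon s2 b2 b3
  -- normalised integral
  obtain ⟨z, hz⟩ : ∃ z, z = 6 * I / (s * M * a) := ⟨_, rfl⟩
  have hsMa : 0 < s * M * a := mul_pos hsM0 ha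
  have hIz : 6 * I = z * (s * M * a) := by rw [hz, div_mul_cancel₀ _ hsMa.ne']
  have hsMS : 0 < s * M * S ^ 2 := by rw [hSS]; exact hsMa
  have f1 : (19 * x ^ 2 + 4 * x + 1) / 4 - 3 * r ^ 2 ≤ z := by
    have h1 : s * M * ((19 * x ^ 2 + 4 * x + 1) * a / 6) ≤
        s * M * (4 * (2 / (2 * s * M) * I + 1 / 2 * A (s * M))) := by gcongr
    have e4 : s * M * (4 * (2 / (2 * s * M) * I + 1 / 2 * A (s * M))) =
        4 * I + 2 * (s * M) * A (s * M) := by
      field_simp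
      ring
    rw [e4, ← hYY, hYr] at h1
    have h2 : ((19 * x ^ 2 + 4 * x + 1) / 4 - 3 * r ^ 2) * (s * M * S ^ 2) ≤
        z * (s * M * S ^ 2) := by
      rw [← hSS] at h1 hIz
      linarith
    exact le_of_mul_le_mul_right h2 hsMS
  have f2 : m ^ 2 + m * r + r ^ 2 ≤ z := by
    have h2 : (m ^ 2 + m * r + r ^ 2) * (s * M * S ^ 2) ≤ z * (s * M * S ^ 2) := by
      rw [hXm, hYr] at b2
      rw [← hSS] at hIz
      linarith
    exact le_of_mul_le_mul_right h2 hsMS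
  have f3 : z ≤ 7 * m ^ 2 - 5 * m + 1 := by
    have h2 : z * (s * M * S ^ 2) ≤ (7 * m ^ 2 - 5 * m + 1) * (s * M * S ^ 2) := by
      rw [hXm] at b3
      rw [← hSS] at hIz
      linarith
    exact le_of_mul_le_mul_right h2 hsMS
  have f4 : 1 + m + m ^ 2 + z + (2 / s - 2) * r ^ 2 ≤ (19 * x ^ 2 + 4 * x + 1) / 2 := by
    have h2 : (1 + m + m ^ 2 + z + (2 / s - 2) * r ^ 2) * (s * M * S ^ 2) ≤
        (19 * x ^ 2 + 4 * x + 1) / 2 * (s * M * S ^ 2) := by
      rw [hXm] at b1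
      rw [hYr] at b4
      rw [← hSS] at hIz hVs
      have e5 : (2 / s - 2) * r ^ 2 * (s * M * S ^ 2) = 2 * (M - s * M) * (r * S) ^ 2 := by
        field_simp
        try ring
      have e6 : (1 + m + m ^ 2 + z + (2 / s - 2) * r ^ 2) * (s * M * S ^ 2) =
          (1 + m + m ^ 2) * (s * M * S ^ 2) + z * (s * M * S ^ 2) +
          (2 / s - 2) * r ^ 2 * (s * M * S ^ 2) := by ring
      rw [e6, e5, ← hIz]
      linarith
    exact le_of_mul_le_mul_right h2 hsMS
  have hW : 2 ≤ 2 / s := by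
    rw [le_div_iff₀ hs]; linarith
  have hWx : 19 * x ^ 2 - 3 < 2 * (2 / s) * x ^ 2 := by
    have : 2 * (2 / s) * x ^ 2 = 4 * x ^ 2 / s := by ring
    rw [this, lt_div_iff₀ hs]
    linarith
  refine fm_alg (x := x) (y := 2 * m - 1) (r := r) (W := 2 / s) hx hx3 hW hWx hr0 k2 ?_ ?_ ?_
  · linarith
  · linarith
  · linarith

/-- Bodies of small volume, general form. -/
theorem fm_general {K : Set E3} (hK : IsConvexBody K) {t₁ t₂ : P2} {x : ℝ} (hx : 9 / 20 ≤ x)
    (hx3 : 3 * x ^ 2 < 1) (hx8 : 19 * x ^ 2 + 4 * x ≤ 7) (hdet : 0 < det2 t₁ t₂)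
    (hle : 6 * det2 t₁ t₂ ≤ (19 * x ^ 2 + 4 * x + 1) * (volume (proj K)).toReal)
    (hpack : PlanarPacking K t₁ t₂) {c : P2} (hc0 : 0 < len K c)
    (hmax : ∀ y, len K y ≤ len K c)
    (hV : 3 * (19 * x ^ 2 - 3) * (volume K).toReal <
      x ^ 2 * (19 * x ^ 2 + 4 * x + 1) * (len K c * (volume (proj K)).toReal)) :
    ENNReal.ofReal (1 / 2) ≤ deltaLstar K := by
  obtain ⟨M, hM⟩ : ∃ M, M = len K c := ⟨_, rfl⟩
  obtain ⟨a, ha⟩ : ∃ a, a = (volume (proj K)).toReal := ⟨_, rfl⟩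
  obtain ⟨V, hVd⟩ : ∃ V, V = (volume K).toReal := ⟨_, rfl⟩
  have hκ := kappa_ge hK hM.symm (by rw [hM]; exact hc0)
  have hpa := proj_pos hK
  have hvl := vol_layer hK hc0 hmax
  rw [← hVd, ← ha, ← hM] at hV
  rw [← ha] at hle
  rw [← ha, ← hVd] at hκ
  rw [← ha] at hpa
  rw [← hVd, ← hM] at hvl
  have hM0 : 0 < M := by rw [hM]; exact hc0
  have hMa : 0 < M * a := mul_pos hM0 hpa
  have hκ' : 1 / 3 * a * M ≤ V := by rwa [le_div_iff₀ hM0] at hκ
  obtain ⟨Q, hQ⟩ : ∃ Q, Q = 19 * x ^ 2 + 4 * x + 1 := ⟨_, rfl⟩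
  have hx2 : (9 / 20) ^ 2 ≤ x ^ 2 := pow_le_pow_left₀ (by norm_num) hx 2
  have hQ0 : 0 < Q := by rw [hQ]; positivity
  have hQMa : 0 < Q * (M * a) := mul_pos hQ0 hMa
  obtain ⟨s, hs⟩ : ∃ s, s = 12 * V / (Q * (M * a)) := ⟨_, rfl⟩
  have hsV : 12 * V = s * (Q * (M * a)) := by rw [hs, div_mul_cancel₀ _ hQMa.ne']
  have hV0 : 0 < V := lt_of_lt_of_le (by positivity) hκ'
  have hs0 : 0 < s := by rw [hs]; positivity
  have hs2 : 1 / 2 ≤ s := by
    rw [hs, le_div_iff₀ hQMa]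
    have h1 : Q * (M * a) ≤ 8 * (M * a) := by
      apply mul_le_mul_of_nonneg_right _ hMa.le
      rw [hQ]; linarith
    linarith
  have hsx : s * (19 * x ^ 2 - 3) < 4 * x ^ 2 := by
    have h1 : s * (19 * x ^ 2 - 3) * (Q * (M * a)) < 4 * x ^ 2 * (Q * (M * a)) := by
      have h2 : s * (19 * x ^ 2 - 3) * (Q * (M * a)) = 12 * V * (19 * x ^ 2 - 3) := by
        rw [hsV]; ring
      rw [h2]
      rw [← hQ] at hV
      linarith
    exact lt_of_mul_lt_mul_right h1 hQMa.le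
  have hs1 : s ≤ 1 := by
    by_contra hlt
    push Not at hlt
    have h1 : 0 < 19 * x ^ 2 - 3 := by linarith
    have h2 : 1 * (19 * x ^ 2 - 3) < s * (19 * x ^ 2 - 3) := by gcongr
    linarith
  have key := profile_fm (A := ar K) (s := s) (x := x) hM0 hpa (by rw [ar_zero, ha])
    (ar_nonneg K) (fun u _ v _ h => ar_anti hK h)
    (fun u v l h1 h2 h3 h4 h5 h6 => ar_conc hK ⟨c, hM.symm⟩ hM0 h1 h2 h3 h4 h5 h6)
    hvl hx hx3 hs0 hs1 hsx (by rw [← hQ]; exact hsV)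
  refine star_of' hK (D := (19 * x ^ 2 + 4 * x + 1) * a / 6) (H := 2 * s * M) (by norm_num)
    (by positivity) (fun y => ?_) hdet (by linarith) hpack (lt_of_le_of_lt ?_ key) ?_
  · have h1 := hmax y
    rw [← hM] at h1
    nlinarith
  · have := fw_layer hK (H := 2 * s * M) (by positivity)
    linarith
  · rw [← hVd]
    rw [← hQ]
    apply le_of_eq
    linarith

/-- The admissible value of `V / (M * a)` for planar density `p`. -/
noncomputable def kap (p : ℝ) : ℝ :=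
  3555 / 10000 + 498 / 1000 * (p - 3 / 4) + 5 / 2 * (p - 3 / 4) ^ 2

/-- Bodies of small volume, with the planar density `p` and a root `x`. -/
theorem fm_root {K : Set E3} (hK : IsConvexBody K) {t₁ t₂ : P2} {p x : ℝ} (hp : 3 / 4 ≤ p)
    (hx : 9 / 20 ≤ x) (hx3 : 3 * x ^ 2 < 1) (hpx : p * (19 * x ^ 2 + 4 * x + 1) = 6)
    (hdet : 0 < det2 t₁ t₂) (hle : p * det2 t₁ t₂ ≤ (volume (proj K)).toReal)
    (hpack : PlanarPacking K t₁ t₂) {c : P2} (hc0 : 0 < len K c)
    (hmax : ∀ y, len K y ≤ len K c) {κ : ℝ} (hκ : p * (19 * x ^ 2 - 3) * κ < 2 * x ^ 2)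
    (hV : (volume K).toReal ≤ κ * (len K c * (volume (proj K)).toReal)) :
    ENNReal.ofReal (1 / 2) ≤ deltaLstar K := by
  have hp0 : 0 < p := by linarith
  have hpa := proj_pos hK
  have hMa : 0 < len K c * (volume (proj K)).toReal := mul_pos hc0 hpa
  have hx2 : (9 / 20) ^ 2 ≤ x ^ 2 := pow_le_pow_left₀ (by norm_num) hx 2
  refine fm_general hK hx hx3 ?_ hdet ?_ hpack hc0 hmax ?_
  · by_contra hlt
    push Not at hlt
    have h1 : 3 / 4 * 8 < p * (19 * x ^ 2 + 4 * x + 1) := by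
      have h2 : 3 / 4 * 8 < 3 / 4 * (19 * x ^ 2 + 4 * x + 1) := by linarith
      have h3 : 3 / 4 * (19 * x ^ 2 + 4 * x + 1) ≤ p * (19 * x ^ 2 + 4 * x + 1) := by
        apply mul_le_mul_of_nonneg_right hp
        linarith
      linarith
    linarith
  · have h1 : p * (6 * det2 t₁ t₂) ≤
        p * ((19 * x ^ 2 + 4 * x + 1) * (volume (proj K)).toReal) := by
      have h2 : p * ((19 * x ^ 2 + 4 * x + 1) * (volume (proj K)).toReal) =
          6 * (volume (proj K)).toReal := by rw [← hpx]; ring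
      rw [h2]
      linarith
    exact le_of_mul_le_mul_left h1 hp0
  · generalize len K c * (volume (proj K)).toReal = B at *
    have h0 : 0 < 19 * x ^ 2 - 3 := by linarith
    have h1 : 3 * (19 * x ^ 2 - 3) * (volume K).toReal ≤ 3 * (19 * x ^ 2 - 3) * (κ * B) :=
      mul_le_mul_of_nonneg_left hV (by linarith)
    have h2 : p * (3 * (19 * x ^ 2 - 3) * κ) < p * (x ^ 2 * (19 * x ^ 2 + 4 * x + 1)) := by
      have h3 : p * (x ^ 2 * (19 * x ^ 2 + 4 * x + 1)) = 6 * x ^ 2 := by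
        rw [← hpx]; ring
      rw [h3]
      linarith
    have h4 := lt_of_mul_lt_mul_left h2 hp0.le
    calc 3 * (19 * x ^ 2 - 3) * (volume K).toReal ≤ 3 * (19 * x ^ 2 - 3) * (κ * B) := h1
      _ = 3 * (19 * x ^ 2 - 3) * κ * B := by ring
      _ < x ^ 2 * (19 * x ^ 2 + 4 * x + 1) * B := mul_lt_mul_of_pos_right h4 hMa

theorem root_exists {p : ℝ} (hp : 0 < p) (hp6 : p ≤ 6) :
    ∃ x : ℝ, 0 ≤ x ∧ p * (19 * x ^ 2 + 4 * x + 1) = 6 := by
  obtain ⟨w, hw⟩ : ∃ w, w = √(114 / p - 15) := ⟨_, rfl⟩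
  have h1 : 19 ≤ 114 / p := by
    rw [le_div_iff₀ hp]; linarith
  have hw2 : w ^ 2 = 114 / p - 15 := by
    rw [hw, Real.sq_sqrt (by linarith)]
  have hw0 : 2 ≤ w := by
    rw [hw]
    apply Real.le_sqrt_of_sq_le
    linarith
  refine ⟨(w - 2) / 19, by linarith, ?_⟩
  have h2 : 19 * ((w - 2) / 19) ^ 2 + 4 * ((w - 2) / 19) + 1 = (w ^ 2 + 15) / 19 := by ring
  rw [h2, hw2]
  field_simp
  ring

theorem quad_F {t : ℝ} (h0 : 0 ≤ t) (h1 : t ≤ 7 / 100) :
    6 ≤ (3 / 4 + t) * (19 * (510774 / 10 ^ 6 - 45567 / 10 ^ 5 * t + 4392 / 10 ^ 4 * t ^ 2) ^ 2 +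
      4 * (510774 / 10 ^ 6 - 45567 / 10 ^ 5 * t + 4392 / 10 ^ 4 * t ^ 2) + 1) := by
  have a1 : 0 ≤ t * t := by positivity
  have a2 : 0 ≤ t * t * t := by positivity
  have a4 : 0 ≤ (t - 3 / 1000) ^ 2 * (t + 6 / 1000) := by positivity
  have a5 : 0 ≤ t * t * t * (7 / 100 - t) := mul_nonneg a2 (by linarith)
  have a6 : 0 ≤ t * t * t * t * t := by positivity
  nlinarith

theorem quad_G {t : ℝ} (h0 : 0 ≤ t) (h1 : t ≤ 7 / 100) :
    (510774 / 10 ^ 6 - 45567 / 10 ^ 5 * t + 4392 / 10 ^ 4 * t ^ 2) ^ 2 *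
      (19 * ((3 / 4 + t) * (3555 / 10000 + 498 / 1000 * t + 5 / 2 * t ^ 2)) - 2) <
    3 * ((3 / 4 + t) * (3555 / 10000 + 498 / 1000 * t + 5 / 2 * t ^ 2)) := by
  have a2 : 0 ≤ t * t * t := by positivity
  have a4 : 0 ≤ t * (t - 156 / 10000) ^ 2 := by positivity
  have a5 : 0 ≤ t * t * t * (7 / 100 - t) := mul_nonneg a2 (by linarith)
  have a6 : 0 ≤ t * t * t * t * (7 / 100 - t) := mul_nonneg (by positivity) (by linarith)
  have a7 : 0 ≤ t * t * t * t * t * t := by positivity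
  have a8 : 0 ≤ t * t * t * t * t * t * (7 / 100 - t) := mul_nonneg a7 (by linarith)
  have a9 : 0 ≤ (t - 18 / 1000) ^ 2 := by positivity
  nlinarith

/-- Bodies of small volume: the closed form for `3/4 ≤ p ≤ 41/50`. -/
theorem fm_quad {K : Set E3} (hK : IsConvexBody K) {t₁ t₂ : P2} {p : ℝ} (hp : 3 / 4 ≤ p)
    (hp1 : p ≤ 41 / 50) (hdet : 0 < det2 t₁ t₂)
    (hle : p * det2 t₁ t₂ ≤ (volume (proj K)).toReal)
    (hpack : PlanarPacking K t₁ t₂) {c : P2} (hc0 : 0 < len K c)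
    (hmax : ∀ y, len K y ≤ len K c)
    (hV : (volume K).toReal ≤ kap p * (len K c * (volume (proj K)).toReal)) :
    ENNReal.ofReal (1 / 2) ≤ deltaLstar K := by
  have hp0 : 0 < p := by linarith
  obtain ⟨x, hx0, hx⟩ := root_exists hp0 (by linarith)
  obtain ⟨t, ht⟩ : ∃ t, t = p - 3 / 4 := ⟨_, rfl⟩
  have hpt : p = 3 / 4 + t := by rw [ht]; ring
  have ht0 : 0 ≤ t := by linarith
  have ht1 : t ≤ 7 / 100 := by linarith
  obtain ⟨y, hy⟩ : ∃ y, y = 510774 / 10 ^ 6 - 45567 / 10 ^ 5 * t + 4392 / 10 ^ 4 * t ^ 2 :=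
    ⟨_, rfl⟩
  have hF := quad_F ht0 ht1
  have hG := quad_G ht0 ht1
  rw [← hy, ← hpt] at hF
  rw [← hy, ← hpt] at hG
  have hy1 : y ≤ 52 / 100 := by rw [hy]; nlinarith
  have hy0 : 0 ≤ y := by rw [hy]; nlinarith
  have hxy : x ≤ y := by
    by_contra hlt
    push Not at hlt
    have h1 : y ^ 2 < x ^ 2 := pow_lt_pow_left₀ hlt hy0 (by norm_num)
    have h2 : p * (19 * y ^ 2 + 4 * y + 1) < p * (19 * x ^ 2 + 4 * x + 1) :=
      mul_lt_mul_of_pos_left (by linarith) hp0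
    linarith
  have hxx : x ^ 2 ≤ y ^ 2 := pow_le_pow_left₀ hx0 hxy 2
  have hyy : y ^ 2 ≤ (52 / 100) ^ 2 := pow_le_pow_left₀ hy0 hy1 2
  have hx9 : 9 / 20 ≤ x := by
    by_contra hlt
    push Not at hlt
    have h1 : x ^ 2 < (9 / 20) ^ 2 := pow_lt_pow_left₀ hlt hx0 (by norm_num)
    have h2 : p * (19 * x ^ 2 + 4 * x + 1) ≤ 41 / 50 * (19 * x ^ 2 + 4 * x + 1) :=
      mul_le_mul_of_nonneg_right hp1 (by positivity)
    linarith
  have hkt : kap p = 3555 / 10000 + 498 / 1000 * t + 5 / 2 * t ^ 2 := by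
    rw [kap, ← ht]
  refine fm_root hK hp hx9 (by linarith) hx hdet hle hpack hc0 hmax (κ := kap p) ?_ hV
  rw [← hkt] at hG
  have hf : 1 / 4 ≤ p * kap p := by
    have h1 : 3555 / 10000 ≤ kap p := by
      rw [hkt]
      have : 0 ≤ t ^ 2 := by positivity
      linarith
    have h2 : 3 / 4 * (3555 / 10000) ≤ p * kap p := by
      apply mul_le_mul hp h1 (by norm_num) hp0.le
    linarith
  have h3 : x ^ 2 * (19 * (p * kap p) - 2) ≤ y ^ 2 * (19 * (p * kap p) - 2) :=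
    mul_le_mul_of_nonneg_right hxx (by linarith)
  linarith

end Pool.Agent.Helper54.LS
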